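import Pool.Agent.Lib.H13G.A
import Pool.Agent.Lib.H44Z.M4

/-!
# H38J, file A2: a fractional Hamiltonian cycle all of whose tight cuts are crossed by tight cuts is a
Hamiltonian cycle (0-1 valued)
-/

set_option autoImplicit false

namespace H38J

open Finset H63F

variable {V : Type*} [Fintype V] [DecidableEq V]

/-- The weight of the edges from `v` into `D`. -/
noncomputable def wv (y : Sym2 V → ℝ) (v : V) (D : Finset V) : ℝ := ∑ u ∈ D, y s(v, u)

theorem cutw_compl' (y : Sym2 V → ℝ) (S : Finset V) : cutw y Sᶜ = cutw y S := by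
  rw [H44Z.cutw_eq, H44Z.cutw_eq, compl_compl, Finset.sum_comm]
  refine Finset.sum_congr rfl fun a _ => Finset.sum_congr rfl fun b _ => ?_
  rw [Sym2.eq_swap]

theorem cutw_insert {y : Sym2 V → ℝ} {v : V} {D : Finset V} (hv : v ∉ D) :
    cutw y (insert v D) = cutw y D + cutw y {v} - 2 * wv y v D := by
  have h1 : (Dᶜ : Finset V) = insert v (insert v D)ᶜ := by
    ext x
    simp only [mem_compl, mem_insert, not_or]
    constructor
    · intro hx
      by_cases h : x = v
      · exact Or.inl h
      · exact Or.inr ⟨h, hx⟩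
    · rintro (rfl | ⟨-, h⟩)
      · exact hv
      · exact h
  have h2 : ({v}ᶜ : Finset V) = D ∪ (insert v D)ᶜ := by
    ext x
    simp only [mem_compl, mem_insert, not_or, mem_union, mem_singleton]
    constructor
    · intro hx
      by_cases h : x ∈ D
      · exact Or.inl h
      · exact Or.inr ⟨hx, h⟩
    · rintro (h | ⟨h, -⟩)
      · rintro rfl
        exact hv h
      · exact h
  have hd : Disjoint D (insert v D)ᶜ := by
    rw [disjoint_left]
    intro x hx hx'
    exact (mem_compl.1 hx') (mem_insert_of_mem hx)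
  have hv2 : v ∉ (insert v D)ᶜ := by
    rw [mem_compl]
    exact fun h => h (mem_insert_self v D)
  rw [H44Z.cutw_eq, H44Z.cutw_eq, H44Z.cutw_eq, Finset.sum_insert hv, Finset.sum_singleton, h1, h2,
    Finset.sum_union hd]
  have h3 : ∑ a ∈ D, ∑ b ∈ insert v (insert v D)ᶜ, y s(a, b) =
      wv y v D + ∑ a ∈ D, ∑ b ∈ (insert v D)ᶜ, y s(a, b) := by
    unfold wv
    rw [← Finset.sum_add_distrib]
    refine Finset.sum_congr rfl fun a _ => ?_
    rw [Finset.sum_insert hv2, Sym2.eq_swap]
  rw [h3]
  unfold wv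
  ring

section

variable {y : Sym2 V → ℝ}

/-- Crossing tight sets: the corners are tight and opposite corners are not joined. -/
theorem cross_tight (h0 : ∀ e, 0 ≤ y e) (hc : ∀ S : Finset V, S.Nonempty → S ≠ univ → 2 ≤ cutw y S)
    {S T : Finset V} (hS : cutw y S = 2) (hT : cutw y T = 2) (hX : ¬ NonX S T) :
    cutw y (S ∩ T) = 2 ∧ cutw y (S \ T) = 2 ∧ (∀ a ∈ S ∩ T, ∀ b, b ∉ S → b ∉ T → y s(a, b) = 0) ∧
      ∀ a ∈ S \ T, ∀ b ∈ T \ S, y s(a, b) = 0 := by
  unfold NonX at hX
  push Not at hX
  obtain ⟨x1, x2, x3, x4⟩ := hX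
  have n1 : (S ∩ T).Nonempty := x1
  have n2 : (S \ T).Nonempty := by
    rw [sdiff_nonempty]
    exact x2
  have n3 : (T \ S).Nonempty := by
    rw [sdiff_nonempty]
    exact x3
  have u1 : S ∩ T ≠ univ := by
    intro h
    obtain ⟨b, hb⟩ := n2
    rw [mem_sdiff] at hb
    exact hb.2 (mem_inter.1 (h ▸ mem_univ b)).2
  have u2 : S \ T ≠ univ := by
    intro h
    obtain ⟨b, hb⟩ := n1
    rw [mem_inter] at hb
    exact (mem_sdiff.1 (h ▸ mem_univ b)).2 hb.2
  have u3 : T \ S ≠ univ := by
    intro h
    obtain ⟨b, hb⟩ := n1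
    rw [mem_inter] at hb
    exact (mem_sdiff.1 (h ▸ mem_univ b)).2 hb.1
  have n4 : (S ∪ T).Nonempty := n1.mono (inter_subset_left.trans subset_union_left)
  have s1 := H13G.cutw_submod h0 S T
  have s2 := H13G.cutw_posimod h0 S T
  have l1 := hc _ n1 u1
  have l2 := hc _ n2 u2
  have l3 := hc _ n3 u3
  have l4 := hc _ n4 x4
  refine ⟨by linarith, by linarith, ?_, ?_⟩
  · intro a ha b hb hb'
    have e1 : ∑ e, y e * (px e S + px e T - px e (S \ T) - px e (T \ S)) = 0 := by
      have : ∑ e, y e * (px e S + px e T - px e (S \ T) - px e (T \ S)) =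
          cutw y S + cutw y T - cutw y (S \ T) - cutw y (T \ S) := by
        unfold cutw
        rw [← Finset.sum_add_distrib, ← Finset.sum_sub_distrib, ← Finset.sum_sub_distrib]
        exact Finset.sum_congr rfl fun e _ => by ring
      rw [this]
      linarith
    have e2 := (Finset.sum_eq_zero_iff_of_nonneg (fun e _ => mul_nonneg (h0 e)
      (by linarith [H13G.px_posimod e S T]))).1 e1 s(a, b) (mem_univ _)
    rw [mem_inter] at ha
    rw [H13G.px_mk, H13G.px_mk, H13G.px_mk, H13G.px_mk] at e2
    simp [ha.1, ha.2, hb, hb'] at e2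
    exact e2
  · intro a ha b hb
    have e1 : ∑ e, y e * (px e S + px e T - px e (S ∩ T) - px e (S ∪ T)) = 0 := by
      have : ∑ e, y e * (px e S + px e T - px e (S ∩ T) - px e (S ∪ T)) =
          cutw y S + cutw y T - cutw y (S ∩ T) - cutw y (S ∪ T) := by
        unfold cutw
        rw [← Finset.sum_add_distrib, ← Finset.sum_sub_distrib, ← Finset.sum_sub_distrib]
        exact Finset.sum_congr rfl fun e _ => by ring
      rw [this]
      linarith
    have e2 := (Finset.sum_eq_zero_iff_of_nonneg (fun e _ => mul_nonneg (h0 e)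
      (by linarith [H13G.px_submod' e S T]))).1 e1 s(a, b) (mem_univ _)
    rw [mem_sdiff] at ha hb
    rw [H13G.px_mk, H13G.px_mk, H13G.px_mk, H13G.px_mk] at e2
    simp [ha.1, ha.2, hb.1, hb.2] at e2
    exact e2

/-- The tight sets which receive half of the weight at `v`. -/
def Dv (y : Sym2 V → ℝ) (v : V) (D : Finset V) : Prop :=
  D.Nonempty ∧ v ∉ D ∧ cutw y D = 2 ∧ wv y v D = 1

theorem wv_compl {v : V} (hv : cutw y {v} = 2) : wv y v {v}ᶜ = 2 := by
  rw [H44Z.cutw_eq, Finset.sum_singleton] at hv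
  exact hv

theorem dv_compl {v : V} (hv : cutw y {v} = 2) {D : Finset V} (h : Dv y v D) :
    Dv y v (insert v D)ᶜ := by
  obtain ⟨h1, h2, h3, h4⟩ := h
  have hw : wv y v D + wv y v (insert v D)ᶜ = 2 := by
    rw [← wv_compl hv]
    unfold wv
    have hd : Disjoint D (insert v D)ᶜ := by
      rw [disjoint_left]
      intro x hx hx'
      exact (mem_compl.1 hx') (mem_insert_of_mem hx)
    rw [← Finset.sum_union hd]
    refine Finset.sum_congr ?_ fun _ _ => rfl
    ext x
    simp only [mem_compl, mem_insert, not_or, mem_union, mem_singleton]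
    constructor
    · rintro (h | ⟨h, -⟩)
      · rintro rfl
        exact h2 h
      · exact h
    · intro hx
      by_cases h : x ∈ D
      · exact Or.inl h
      · exact Or.inr ⟨hx, h⟩
  refine ⟨?_, ?_, ?_, by linarith⟩
  · rw [nonempty_iff_ne_empty]
    intro he
    rw [he] at hw
    unfold wv at hw h4
    rw [h4, sum_empty] at hw
    norm_num at hw
  · rw [mem_compl]
    exact fun h => h (mem_insert_self v D)
  · rw [cutw_compl', cutw_insert h2]
    linarith

theorem down (h0 : ∀ e, 0 ≤ y e) (hv : ∀ v, cutw y {v} = 2)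
    (hc : ∀ S : Finset V, S.Nonempty → S ≠ univ → 2 ≤ cutw y S)
    (hx : ∀ S : Finset V, 2 ≤ S.card → S.card + 2 ≤ Fintype.card V → cutw y S = 2 →
      ∃ T : Finset V, cutw y T = 2 ∧ ¬ NonX S T) (v : V) :
    ∀ n : ℕ, ∀ D : Finset V, D.card = n → Dv y v D → ∃ u ∈ D, y s(v, u) = 1 := by
  intro n
  induction n using Nat.strong_induction_on with
  | _ n ih =>
    intro D hn hD
    obtain ⟨d1, d2, d3, d4⟩ := hD
    rcases Nat.lt_or_ge 1 D.card with hcard | hcard
    · -- at least two elements
      have h2 : D.card + 2 ≤ Fintype.card V := by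
        have hD' := (dv_compl (hv v) ⟨d1, d2, d3, d4⟩).1
        have h3 := card_compl_add_card (insert v D)
        rw [card_insert_of_notMem d2] at h3
        have h4 := card_pos.2 hD'
        omega
      obtain ⟨T, hT, hX⟩ := hx D hcard h2 d3
      obtain ⟨c1, c2, c3, c4⟩ := cross_tight h0 hc d3 hT hX
      unfold NonX at hX
      push Not at hX
      obtain ⟨x1, x2, x3, x4⟩ := hX
      have n1 : (D ∩ T).Nonempty := x1
      have n2 : (D \ T).Nonempty := by
        rw [sdiff_nonempty]
        exact x2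
      have hsum : wv y v (D ∩ T) + wv y v (D \ T) = 1 := by
        rw [← d4]
        unfold wv
        rw [← Finset.sum_union (disjoint_left.2 fun x hx hx' =>
          (mem_sdiff.1 hx').2 (mem_inter.1 hx).2)]
        refine Finset.sum_congr ?_ fun _ _ => rfl
        ext x
        simp only [mem_union, mem_inter, mem_sdiff]
        tauto
      have k1 := card_sdiff_add_card_inter D T
      have k2 := card_pos.2 n1
      have k3 := card_pos.2 n2
      by_cases hvT : v ∈ T
      · have hz : wv y v (D \ T) = 0 := by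
          unfold wv
          refine Finset.sum_eq_zero fun u hu => ?_
          rw [Sym2.eq_swap]
          exact c4 u hu v (mem_sdiff.2 ⟨hvT, d2⟩)
        obtain ⟨u, hu, hyu⟩ := ih (D ∩ T).card (by omega) (D ∩ T) rfl
          ⟨n1, fun h => d2 (mem_inter.1 h).1, c1, by linarith⟩
        exact ⟨u, (mem_inter.1 hu).1, hyu⟩
      · have hz : wv y v (D ∩ T) = 0 := by
          unfold wv
          refine Finset.sum_eq_zero fun u hu => ?_
          rw [Sym2.eq_swap]
          exact c3 u hu v d2 hvT
        obtain ⟨u, hu, hyu⟩ := ih (D \ T).card (by omega) (D \ T) rfl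
          ⟨n2, fun h => d2 (mem_sdiff.1 h).1, c2, by linarith⟩
        exact ⟨u, (mem_sdiff.1 hu).1, hyu⟩
    · have h1 : D.card = 1 := le_antisymm hcard (card_pos.2 d1)
      obtain ⟨u, hu⟩ := card_eq_one.1 h1
      refine ⟨u, hu ▸ mem_singleton_self u, ?_⟩
      rw [hu] at d4
      unfold wv at d4
      rwa [sum_singleton] at d4

/-- MAIN LEMMA: if there is a nontrivial tight cut and every one is crossed by a tight cut, then `y` is
`0`-`1`-valued. -/
theorem zero_one (h0 : ∀ e, 0 ≤ y e) (hl : ∀ v, y s(v, v) = 0) (hv : ∀ v, cutw y {v} = 2)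
    (hc : ∀ S : Finset V, S.Nonempty → S ≠ univ → 2 ≤ cutw y S)
    (hx : ∀ S : Finset V, 2 ≤ S.card → S.card + 2 ≤ Fintype.card V → cutw y S = 2 →
      ∃ T : Finset V, cutw y T = 2 ∧ ¬ NonX S T)
    (hex : ∃ S : Finset V, 2 ≤ S.card ∧ S.card + 2 ≤ Fintype.card V ∧ cutw y S = 2) :
    ∀ e, y e = 0 ∨ y e = 1 := by
  classical
  have key : ∀ v D, Dv y v D → ∀ b, (y s(v, b) = 0 ∨ y s(v, b) = 1) ∧
      (y s(v, b) = 1 → Dv y b {v}) := by
    intro v D hD b
    obtain ⟨u, hu, hyu⟩ := down h0 hv hc hx v _ D rfl hD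
    obtain ⟨w, hw, hyw⟩ := down h0 hv hc hx v _ _ rfl (dv_compl (hv v) hD)
    have huv : u ≠ v := fun h => hD.2.1 (h ▸ hu)
    have hwv : w ≠ v := fun h => (mem_compl.1 hw) (h ▸ mem_insert_self w D)
    have huw : u ≠ w := fun h => (mem_compl.1 hw) (mem_insert_of_mem (h ▸ hu))
    refine ⟨?_, ?_⟩
    · by_cases hb : b = v
      · subst hb
        exact Or.inl (hl b)
      by_cases hbu : b = u
      · subst hbu
        exact Or.inr hyu
      by_cases hbw : b = w
      · subst hbw
        exact Or.inr hyw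
      left
      have h2 := wv_compl (hv v)
      have h3 : ∑ x ∈ ({b, u, w} : Finset V), y s(v, x) ≤ wv y v {v}ᶜ := by
        unfold wv
        refine Finset.sum_le_sum_of_subset_of_nonneg ?_ fun x _ _ => h0 _
        intro x hx
        rw [mem_compl, mem_singleton]
        simp only [mem_insert, mem_singleton] at hx
        rcases hx with rfl | rfl | rfl
        · exact hb
        · exact huv
        · exact hwv
      rw [sum_insert (by simp [hbu, hbw]), sum_insert (by simp [huw]), sum_singleton, hyu, hyw, h2] at h3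
      linarith [h0 s(v, b)]
    · intro h1
      refine ⟨singleton_nonempty v, ?_, hv v, ?_⟩
      · rw [mem_singleton]
        rintro rfl
        rw [hl] at h1
        exact zero_ne_one h1
      · unfold wv
        rw [sum_singleton, Sym2.eq_swap]
        exact h1
  -- a vertex with a half
  obtain ⟨a, b, hab⟩ : ∃ a D, Dv y a D := by
    obtain ⟨S0, hS0⟩ := hex
    have hne : (univ.filter fun S : Finset V => 2 ≤ S.card ∧ S.card + 2 ≤ Fintype.card V ∧
        cutw y S = 2).Nonempty := ⟨S0, mem_filter.2 ⟨mem_univ _, hS0⟩⟩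
    obtain ⟨S, hS, hmin⟩ := exists_min_image _ card hne
    obtain ⟨-, m1, m2, m3⟩ := mem_filter.1 hS
    have hsmall : ∀ R : Finset V, cutw y R = 2 → R.card < S.card → R.card ≤ 1 := by
      intro R hR hlt
      by_contra hcon
      have := hmin R (mem_filter.2 ⟨mem_univ _, by omega, by omega, hR⟩)
      omega
    obtain ⟨T, hT, hX⟩ := hx S m1 m2 m3
    obtain ⟨c1, c2, -, -⟩ := cross_tight h0 hc m3 hT hX
    unfold NonX at hX
    push Not at hX
    obtain ⟨x1, x2, x3, x4⟩ := hX
    have n1 : (S ∩ T).Nonempty := x1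
    have n2 : (S \ T).Nonempty := by
      rw [sdiff_nonempty]
      exact x2
    have k1 := card_sdiff_add_card_inter S T
    have k2 := card_pos.2 n1
    have k3 := card_pos.2 n2
    have k4 := hsmall _ c1 (by omega)
    have k5 := hsmall _ c2 (by omega)
    have k6 : S.card = 2 := by omega
    obtain ⟨a, b, hne', hSab⟩ := card_eq_two.1 k6
    refine ⟨a, {b}, singleton_nonempty b, ?_, hv b, ?_⟩
    · rw [mem_singleton]
      exact hne'
    · have h5 := cutw_insert (y := y) (v := a) (D := {b}) (by rw [mem_singleton]; exact hne')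
      rw [hv, hv, ← hSab, m3] at h5
      linarith
  -- the set of the good vertices is everything
  have hW : ∀ v, ∃ D, Dv y v D := by
    by_contra hcon
    push Not at hcon
    obtain ⟨v0, hv0⟩ := hcon
    have h1 := hc (univ.filter fun v => ∃ D, Dv y v D) ⟨a, mem_filter.2 ⟨mem_univ _, b, hab⟩⟩ (by
      intro h
      have h2 : v0 ∈ univ.filter fun v => ∃ D, Dv y v D := by
        rw [h]
        exact mem_univ v0
      obtain ⟨-, D, hD⟩ := mem_filter.1 h2
      exact hv0 D hD)
    rw [H44Z.cutw_eq, Finset.sum_eq_zero] at h1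
    · norm_num at h1
    · intro v hv'
      obtain ⟨-, D, hD⟩ := mem_filter.1 hv'
      refine Finset.sum_eq_zero fun w hw => ?_
      rcases (key v D hD w).1 with h2 | h2
      · exact h2
      · exact absurd (mem_filter.2 ⟨mem_univ _, {v}, (key v D hD w).2 h2⟩) (mem_compl.1 hw)
  intro e
  induction e using Sym2.ind with
  | _ v w =>
    obtain ⟨D, hD⟩ := hW v
    exact (key v D hD w).1

end

end H38J
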