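import Pool.Agent.Lib.H96H.D
import Pool.Agent.Lib.H38J.A2

/-! # H38J, file T2x: `zero_one` rescaled to the form of chunk T2 of H96H -/

set_option autoImplicit false

namespace H38J

open Finset H98P H98Z H98M H63F H96H

variable {V : Type*} [Fintype V] [DecidableEq V]

theorem tight_lemma {x : Sym2 V → ℝ} (h0 : ∀ e, 0 ≤ x e) (hl : ∀ v, x s(v, v) = 0) {l : ℝ} (hl0 : 0 < l)
    (hdeg : ∀ v, cutw x {v} = l) (hcut : ∀ S : Finset V, S.Nonempty → S ≠ univ → l ≤ cutw x S)
    (hex : ∃ S : NCut V, cutw x S.1 = l)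
    (hcr : ∀ S : NCut V, cutw x S.1 = l → ∃ S' : NCut V, cutw x S'.1 = l ∧ ¬ NonX S.1 S'.1) :
    ∀ e, x e = 0 ∨ x e = l / 2 := by
  have hs : ∀ S : Finset V, cutw (fun e => 2 / l * x e) S = 2 / l * cutw x S := by
    intro S
    unfold cutw
    rw [Finset.mul_sum]
    exact Finset.sum_congr rfl fun e _ => by ring
  have h2l : 2 / l * l = 2 := div_mul_cancel₀ 2 hl0.ne'
  have hpos : 0 < 2 / l := by positivity
  have hiff : ∀ S : Finset V, cutw (fun e => 2 / l * x e) S = 2 ↔ cutw x S = l := by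
    intro S
    rw [hs]
    constructor
    · intro h
      have h3 : 2 / l * cutw x S = 2 / l * l := by rw [h, h2l]
      exact mul_left_cancel₀ hpos.ne' h3
    · intro h
      rw [h, h2l]
  have hcard : ∀ S : Finset V, (univ \ S).card + S.card = Fintype.card V := by
    intro S
    rw [card_sdiff_add_card_eq_card (subset_univ S), card_univ]
  have h := zero_one (y := fun e => 2 / l * x e) (fun e => mul_nonneg hpos.le (h0 e))
    (fun v => by rw [hl, mul_zero]) (fun v => (hiff {v}).2 (hdeg v))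
    (fun S hS hS' => by
      have h3 := mul_le_mul_of_nonneg_left (hcut S hS hS') hpos.le
      rw [h2l] at h3
      rw [hs]
      exact h3)
    (fun S h1 h2 h3 => by
      have h4 := hcard S
      obtain ⟨T, hT, hX⟩ := hcr ⟨S, h1, by omega⟩ ((hiff S).1 h3)
      exact ⟨T.1, (hiff T.1).2 hT, hX⟩)
    (by
      obtain ⟨S, hS⟩ := hex
      have h4 := hcard S.1
      have h5 := S.2.2
      exact ⟨S.1, S.2.1, by omega, (hiff S.1).2 hS⟩)
  intro e
  rcases h e with h1 | h1
  · left
    rcases mul_eq_zero.1 h1 with h2 | h2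
    · exact absurd h2 hpos.ne'
    · exact h2
  · right
    have h2 : 2 / l * x e = 2 / l * (l / 2) := by
      rw [h1]
      field_simp
    exact mul_left_cancel₀ hpos.ne' h2

end H38J
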